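import Pool.Agent.H395Z.GefB

set_option autoImplicit false

namespace Pool.Agent.Results.MP_629fb1_pr.AThinRectangle

open Pool.Agent.H395Z.Gef

/-- There is a compact connected (even convex) set `K` with nonempty interior for which the
normalised hole exponent `r⁻⁴ p_{H,K}(f; r)` of the Gaussian entire function stays eventually
below a constant `c < (e²/4) c(K)⁴`; so it does not tend to `(e²/4) c(K)⁴`. -/
theorem result : ∃ K : Set ℂ, IsCompact K ∧ IsConnected K ∧ (interior K).Nonempty ∧ Convex ℝ K ∧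
    (∃ c : ℝ, c < Real.exp 2 / 4 * cap K ^ 4 ∧
      ∀ᶠ r : ℝ in Filter.atTop, 0 < holeProb K r ∧ holeExp K r / r ^ 4 ≤ c) ∧
    ¬ Filter.Tendsto (fun r : ℝ => holeExp K r / r ^ 4) Filter.atTop
      (nhds (Real.exp 2 / 4 * cap K ^ 4)) :=
  Pool.Agent.H395Z.Gef.main

end Pool.Agent.Results.MP_629fb1_pr.AThinRectangle
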